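import Pool.Agent.H84.Unc.Defs

/-!
# UNC2, module N1a: cosine polynomials on the box
-/

set_option autoImplicit false

open MeasureTheory Set

namespace Pool.Agent.H84.Unc

variable {n N : ℕ}

namespace N1a

theorem pd_eq {f : (Fin n → ℝ) → ℝ} {j : Fin n} {x : Fin n → ℝ} {d : ℝ}
    (hf : DifferentiableAt ℝ f x)
    (h : HasDerivAt (fun t : ℝ => f (Function.update x j t)) d (x j)) : pd j f x = d := by
  have h1 : HasDerivAt (Function.update x j) (Pi.single j (1:ℝ)) (x j) :=
    hasDerivAt_update x j (x j)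
  have hf' : HasFDerivAt f (fderiv ℝ f x) (Function.update x j (x j)) := by
    rw [Function.update_eq_self]; exact hf.hasFDerivAt
  have h2 := hf'.comp_hasDerivAt (x j) h1
  exact h2.unique h

/-- Products of functions of one variable. -/
noncomputable def prd (a : Fin n → ℝ → ℝ) (x : Fin n → ℝ) : ℝ := ∏ i, a i (x i)

theorem prd_contDiff {a : Fin n → ℝ → ℝ} {m : WithTop ℕ∞} (ha : ∀ i, ContDiff ℝ m (a i)) :
    ContDiff ℝ m (prd a) := by
  unfold prd
  exact contDiff_prod (fun i _ => (ha i).comp (contDiff_apply ℝ ℝ i))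

theorem pd_prd {a : Fin n → ℝ → ℝ} (ha : ∀ i, ContDiff ℝ 1 (a i)) (j : Fin n) :
    pd j (prd a) = prd (Function.update a j (deriv (a j))) := by
  funext x
  apply pd_eq ((prd_contDiff ha).differentiable (by simp) x)
  have h1 : (fun t : ℝ => prd a (Function.update x j t)) =
      fun t => a j t * ∏ i ∈ Finset.univ.erase j, a i (x i) := by
    funext t
    unfold prd
    rw [← Finset.mul_prod_erase Finset.univ _ (Finset.mem_univ j)]
    rw [Function.update_self]
    congr 1
    apply Finset.prod_congr rfl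
    intro i hi
    rw [Function.update_of_ne (Finset.ne_of_mem_erase hi)]
  have h2 : prd (Function.update a j (deriv (a j))) x =
      deriv (a j) (x j) * ∏ i ∈ Finset.univ.erase j, a i (x i) := by
    unfold prd
    rw [← Finset.mul_prod_erase Finset.univ _ (Finset.mem_univ j)]
    rw [Function.update_self]
    congr 1
    apply Finset.prod_congr rfl
    intro i hi
    rw [Function.update_of_ne (Finset.ne_of_mem_erase hi)]
  rw [h1, h2]
  exact (((ha j).differentiable (by simp) (x j)).hasDerivAt).mul_const _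

/-- The one-variable factors. -/
noncomputable def ck (k : Fin n → ℕ) (i : Fin n) (t : ℝ) : ℝ := Real.cos (k i * t)

theorem ck_contDiff (k : Fin n → ℕ) (i : Fin n) {m : WithTop ℕ∞} : ContDiff ℝ m (ck k i) := by
  unfold ck
  exact Real.contDiff_cos.comp (contDiff_const.mul contDiff_id)

theorem cosm_eq (k : Fin n → ℕ) : cosm k = prd (ck k) := rfl

theorem ck_hasDeriv (k : Fin n → ℕ) (i : Fin n) (t : ℝ) :
    HasDerivAt (ck k i) (-((k i : ℝ) * Real.sin (k i * t))) t := by
  have h1 : HasDerivAt (fun t : ℝ => (k i : ℝ) * t) (k i) t := by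
    simpa using (hasDerivAt_id t).const_mul (k i : ℝ)
  have h2 := h1.cos
  unfold ck
  convert h2 using 1
  ring

theorem ck_deriv (k : Fin n → ℕ) (i : Fin n) :
    deriv (ck k i) = fun t => -((k i : ℝ) * Real.sin (k i * t)) :=
  funext fun t => (ck_hasDeriv k i t).deriv

theorem ck_deriv_contDiff (k : Fin n → ℕ) (i : Fin n) {m : WithTop ℕ∞} :
    ContDiff ℝ m (deriv (ck k i)) := by
  rw [ck_deriv]
  exact (contDiff_const.mul (Real.contDiff_sin.comp (contDiff_const.mul contDiff_id))).neg

theorem ck_deriv2 (k : Fin n → ℕ) (i : Fin n) :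
    deriv (deriv (ck k i)) = fun t => -((k i : ℝ) ^ 2) * ck k i t := by
  rw [ck_deriv]
  funext t
  have h1 : HasDerivAt (fun t : ℝ => (k i : ℝ) * t) (k i) t := by
    simpa using (hasDerivAt_id t).const_mul (k i : ℝ)
  have h2 : HasDerivAt (fun t => -((k i : ℝ) * Real.sin (k i * t)))
      (-(↑(k i) * (Real.cos (↑(k i) * t) * ↑(k i)))) t := (h1.sin.const_mul (k i : ℝ)).neg
  rw [h2.deriv]
  unfold ck
  ring

theorem ck_deriv_zero (k : Fin n → ℕ) (i : Fin n) {t : ℝ} (ht : t = 0 ∨ t = Real.pi) :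
    deriv (ck k i) t = 0 := by
  rw [ck_deriv]
  rcases ht with rfl | rfl
  · simp
  · simp [Real.sin_nat_mul_pi]

theorem upd_contDiff {k : Fin n → ℕ} (i : Fin n) {m : WithTop ℕ∞} (l : Fin n) :
    ContDiff ℝ m (Function.update (ck k) i (deriv (ck k i)) l) := by
  by_cases h : l = i
  · subst h; rw [Function.update_self]; exact ck_deriv_contDiff k l
  · rw [Function.update_of_ne h]; exact ck_contDiff k l

theorem prd_zero {a : Fin n → ℝ → ℝ} {x : Fin n → ℝ} (j : Fin n) (h : a j (x j) = 0) :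
    prd a x = 0 := Finset.prod_eq_zero (Finset.mem_univ j) h

theorem cosm_contDiff (k : Fin n → ℕ) {m : WithTop ℕ∞} : ContDiff ℝ m (cosm k) := by
  rw [cosm_eq]; exact prd_contDiff (fun i => ck_contDiff k i)

theorem pd_cosm (k : Fin n → ℕ) (i : Fin n) :
    pd i (cosm k) = prd (Function.update (ck k) i (deriv (ck k i))) := by
  rw [cosm_eq, pd_prd (fun i => ck_contDiff k i)]

theorem cosm_neum (k : Fin n → ℕ) : Neum (cosm k) := by
  intro j x _ hj
  constructor
  · rw [pd_cosm]
    apply prd_zero j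
    rw [Function.update_self]
    exact ck_deriv_zero k j hj
  · intro i hij
    rw [pd_cosm, pd_prd (fun l => upd_contDiff i l)]
    apply prd_zero j
    rw [Function.update_self, Function.update_of_ne hij.symm]
    exact ck_deriv_zero k j hj

theorem pd_pd_cosm (k : Fin n → ℕ) (i : Fin n) (x : Fin n → ℝ) :
    pd i (pd i (cosm k)) x = -((k i : ℝ) ^ 2) * cosm k x := by
  rw [pd_cosm, pd_prd (fun l => upd_contDiff i l), Function.update_self, Function.update_idem,
    ck_deriv2]
  unfold prd cosm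
  rw [← Finset.mul_prod_erase Finset.univ _ (Finset.mem_univ i),
    ← Finset.mul_prod_erase Finset.univ (fun i => Real.cos (k i * x i)) (Finset.mem_univ i),
    Function.update_self, ← mul_assoc]
  congr 1
  apply Finset.prod_congr rfl
  intro l hl
  rw [Function.update_of_ne (Finset.ne_of_mem_erase hl)]
  rfl

theorem pd_add' {f g : (Fin n → ℝ) → ℝ} (hf : ContDiff ℝ 1 f) (hg : ContDiff ℝ 1 g) (i : Fin n) :
    pd i (f + g) = pd i f + pd i g := by
  funext x
  have h1 := hf.differentiable (by simp) x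
  have h2 := hg.differentiable (by simp) x
  unfold pd
  rw [fderiv_add h1 h2]
  rfl

theorem pd_smul' {f : (Fin n → ℝ) → ℝ} (hf : ContDiff ℝ 1 f) (c : ℝ) (i : Fin n) :
    pd i (c • f) = c • pd i f := by
  funext x
  have h1 := hf.differentiable (by simp) x
  unfold pd
  rw [fderiv_const_smul h1]
  rfl

theorem pd_zero' (i : Fin n) : pd i (0 : (Fin n → ℝ) → ℝ) = 0 := by
  funext x
  unfold pd
  simp

theorem pd_contDiff1 {f : (Fin n → ℝ) → ℝ} (hf : ContDiff ℝ 2 f) (i : Fin n) :
    ContDiff ℝ 1 (pd i f) := by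
  have h1 : ContDiff ℝ 1 (fderiv ℝ f) := hf.fderiv_right (by norm_num)
  exact h1.clm_apply contDiff_const

end N1a

open N1a

theorem VV_contDiff {f : (Fin n → ℝ) → ℝ} (hf : f ∈ VV n N) (m : ℕ) : ContDiff ℝ m f := by
  induction hf using Submodule.span_induction with
  | mem f hf =>
    obtain ⟨k, _, rfl⟩ := hf
    exact cosm_contDiff k
  | zero => exact contDiff_const
  | add f g _ _ hf hg => exact hf.add hg
  | smul c f _ hf => exact hf.const_smul c

theorem VV_neum {f : (Fin n → ℝ) → ℝ} (hf : f ∈ VV n N) : Neum f := by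
  induction hf using Submodule.span_induction with
  | mem f hf =>
    obtain ⟨k, _, rfl⟩ := hf
    exact cosm_neum k
  | zero =>
    intro j x _ _
    simp only [pd_zero']
    simp
  | add f g hf' hg' hf hg =>
    intro j x hx hj
    have f2 : ContDiff ℝ 2 f := by exact_mod_cast VV_contDiff hf' 2
    have g2 : ContDiff ℝ 2 g := by exact_mod_cast VV_contDiff hg' 2
    have f1 := f2.of_le (show (1 : WithTop ℕ∞) ≤ 2 by norm_num)
    have g1 := g2.of_le (show (1 : WithTop ℕ∞) ≤ 2 by norm_num)
    obtain ⟨a1, a2⟩ := hf j x hx hj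
    obtain ⟨b1, b2⟩ := hg j x hx hj
    constructor
    · rw [pd_add' f1 g1, Pi.add_apply, a1, b1, add_zero]
    · intro i hi
      rw [pd_add' f1 g1, pd_add' (pd_contDiff1 f2 i) (pd_contDiff1 g2 i), Pi.add_apply, a2 i hi,
        b2 i hi, add_zero]
  | smul c f hf' hf =>
    intro j x hx hj
    have f2 : ContDiff ℝ 2 f := by exact_mod_cast VV_contDiff hf' 2
    have f1 := f2.of_le (show (1 : WithTop ℕ∞) ≤ 2 by norm_num)
    obtain ⟨a1, a2⟩ := hf j x hx hj
    constructor
    · rw [pd_smul' f1, Pi.smul_apply, a1, smul_zero]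
    · intro i hi
      rw [pd_smul' f1, pd_smul' (pd_contDiff1 f2 i), Pi.smul_apply, a2 i hi, smul_zero]

theorem VV_lap {f : (Fin n → ℝ) → ℝ} (hf : f ∈ VV n N) :
    (fun x => ∑ i, pd i (pd i f) x) ∈ VV n N := by
  induction hf using Submodule.span_induction with
  | mem f hf =>
    obtain ⟨k, hk, rfl⟩ := hf
    have h1 : (fun x => ∑ i, pd i (pd i (cosm k)) x) = (∑ i, -((k i : ℝ) ^ 2)) • cosm k := by
      funext x
      rw [Pi.smul_apply, smul_eq_mul, Finset.sum_mul]
      exact Finset.sum_congr rfl fun i _ => pd_pd_cosm k i x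
    rw [h1]
    exact Submodule.smul_mem _ _ (Submodule.subset_span ⟨k, hk, rfl⟩)
  | zero =>
    have h1 : (fun x => ∑ i, pd i (pd i (0 : (Fin n → ℝ) → ℝ)) x) = 0 := by
      funext x
      simp only [pd_zero']
      simp
    rw [h1]
    exact Submodule.zero_mem _
  | add f g hf' hg' hf hg =>
    have f2 : ContDiff ℝ 2 f := by exact_mod_cast VV_contDiff hf' 2
    have g2 : ContDiff ℝ 2 g := by exact_mod_cast VV_contDiff hg' 2
    have f1 := f2.of_le (show (1 : WithTop ℕ∞) ≤ 2 by norm_num)
    have g1 := g2.of_le (show (1 : WithTop ℕ∞) ≤ 2 by norm_num)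
    have h1 : (fun x => ∑ i, pd i (pd i (f + g)) x) =
        (fun x => ∑ i, pd i (pd i f) x) + fun x => ∑ i, pd i (pd i g) x := by
      funext x
      rw [Pi.add_apply, ← Finset.sum_add_distrib]
      refine Finset.sum_congr rfl fun i _ => ?_
      rw [pd_add' f1 g1, pd_add' (pd_contDiff1 f2 i) (pd_contDiff1 g2 i), Pi.add_apply]
    rw [h1]
    exact Submodule.add_mem _ hf hg
  | smul c f hf' hf =>
    have f2 : ContDiff ℝ 2 f := by exact_mod_cast VV_contDiff hf' 2
    have f1 := f2.of_le (show (1 : WithTop ℕ∞) ≤ 2 by norm_num)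
    have h1 : (fun x => ∑ i, pd i (pd i (c • f)) x) = c • fun x => ∑ i, pd i (pd i f) x := by
      funext x
      rw [Pi.smul_apply, smul_eq_mul, Finset.mul_sum]
      refine Finset.sum_congr rfl fun i _ => ?_
      rw [pd_smul' f1, pd_smul' (pd_contDiff1 f2 i), Pi.smul_apply, smul_eq_mul]
    rw [h1]
    exact Submodule.smul_mem _ _ hf

theorem VV_const (c : ℝ) : (fun _ => c) ∈ VV n N := by
  have h1 : (fun _ : Fin n → ℝ => c) = c • cosm (fun _ => 0) := by
    funext x
    rw [Pi.smul_apply, smul_eq_mul]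
    unfold cosm
    simp
  rw [h1]
  exact Submodule.smul_mem _ _ (Submodule.subset_span ⟨fun _ => 0, fun _ => Nat.zero_le _, rfl⟩)

theorem VV_finite : FiniteDimensional ℝ (VV n N) := by
  apply FiniteDimensional.span_of_finite
  have h1 : (Set.Icc (0 : Fin n → ℕ) (fun _ => N)).Finite := Set.finite_Icc _ _
  refine (h1.image cosm).subset ?_
  rintro f ⟨k, hk, rfl⟩
  exact ⟨k, ⟨fun i => Nat.zero_le _, fun i => hk i⟩, rfl⟩

/-- Folding back to the box. -/
theorem VV_fold {f : (Fin n → ℝ) → ℝ} (hf : f ∈ VV n N) (x : Fin n → ℝ) :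
    f x = f (fun i => Real.arccos (Real.cos (x i))) := by
  induction hf using Submodule.span_induction with
  | mem f hf =>
    obtain ⟨k, _, rfl⟩ := hf
    unfold cosm
    refine Finset.prod_congr rfl fun i _ => ?_
    have h1 : ∀ t : ℝ, Real.cos (k i * t) =
        (Polynomial.Chebyshev.T ℝ (k i)).eval (Real.cos t) := by
      intro t
      rw [Polynomial.Chebyshev.T_real_cos]
      push_cast
      rfl
    rw [h1, h1, Real.cos_arccos (Real.neg_one_le_cos _) (Real.cos_le_one _)]
  | zero => rfl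
  | add f g _ _ hf hg => rw [Pi.add_apply, Pi.add_apply, ← hf, ← hg]
  | smul c f _ hf => rw [Pi.smul_apply, Pi.smul_apply, ← hf]

theorem VV_eq_zero {f : (Fin n → ℝ) → ℝ} (hf : f ∈ VV n N) (h : ∀ x ∈ QQ n, f x = 0) : f = 0 := by
  funext x
  rw [VV_fold hf x]
  exact h _ ⟨fun i => Real.arccos_nonneg _, fun i => Real.arccos_le_pi _⟩

end Pool.Agent.H84.Unc
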